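import Pool.Agent.Helper2.M3.Y0

/-!
# The chain of inequalities for a Blaschke sum of `K` and `-K`, dimension three
-/

set_option autoImplicit false
set_option linter.unusedSectionVars false

open MeasureTheory Set Multiset Module
open scoped Pointwise NNReal ENNReal

noncomputable section

namespace Pool.Agent.Helper2.M3

open Pool.Agent.TH650.MV Pool.Agent.Helper2.Mah

/-- the lower bound of the volume of the Blaschke sum, in real numbers -/
theorem real_low {c a e v p q m : ℝ} (hc : 0 < c) (hv2 : 2 ≤ v) (he : 0 < e) (hea : e ≤ a)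
    (hp : 0 ≤ p) (hm0 : 0 ≤ m) (hq : 0 ≤ q)
    (h1 : c * (c * a ^ 2) ≤ p ^ 2) (h2 : m ≤ 3 * p)
    (h3 : c * (v * a ^ 2 - (v - 1) * e ^ 2) *
      (c * (1 + 2 * (a / e - 1) * v + (a / e - 1) ^ 2 * v)) ≤ (q + (a / e - 1) * m) ^ 2) :
    c * (a ^ 3 - ((3 - v) * a * e * (a - e) + (v - 1) * e ^ 3) / (v + 1)) ≤
      (a ^ 2 - v * e ^ 2 / (v + 1)) * p + e ^ 2 / (v + 1) * q := by
  have ha : 0 < a := lt_of_lt_of_le he hea
  have hv1 : 0 < v + 1 := by linarith
  have hpa : c * a ≤ p := by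
    refine le_of_pow_le_pow_left₀ (n := 2) (by norm_num) hp ?_
    linarith [h1, (by ring : (c * a) ^ 2 = c * (c * a ^ 2))]
  set k : ℝ := a / e - 1 with hk
  have hk0 : 0 ≤ k := by rw [hk, sub_nonneg, le_div_iff₀ he]; linarith
  have hke : k * e = a - e := by rw [hk]; field_simp
  set y : ℝ := v * a ^ 2 - (v - 1) * e ^ 2 with hy
  have hy0 : 0 ≤ y := by
    have : (v - 1) * e ^ 2 ≤ (v - 1) * a ^ 2 :=
      mul_le_mul_of_nonneg_left (pow_le_pow_left₀ he.le hea 2) (by linarith)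
    rw [hy]; nlinarith [sq_nonneg a]
  have hw : (1 + 2 * k * v + k ^ 2 * v) * e ^ 2 = y := by
    have : (1 + 2 * k * v + k ^ 2 * v) * e ^ 2 = e ^ 2 + 2 * v * (k * e) * e + v * (k * e) ^ 2 := by
      ring
    rw [this, hke, hy]; ring
  have hq2 : c * y ≤ (q + k * m) * e := by
    refine le_of_pow_le_pow_left₀ (n := 2) (by norm_num) (by positivity) ?_
    calc (c * y) ^ 2 = c * y * (c * ((1 + 2 * k * v + k ^ 2 * v) * e ^ 2)) := by rw [hw]; ring
      _ = (c * y * (c * (1 + 2 * k * v + k ^ 2 * v))) * e ^ 2 := by ring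
      _ ≤ (q + k * m) ^ 2 * e ^ 2 := mul_le_mul_of_nonneg_right h3 (sq_nonneg e)
      _ = _ := by ring
  -- clear the denominator `v + 1`
  have e1 : c * (a ^ 3 - ((3 - v) * a * e * (a - e) + (v - 1) * e ^ 3) / (v + 1)) =
      (c * ((v + 1) * a ^ 3 - ((3 - v) * a * e * (a - e) + (v - 1) * e ^ 3))) / (v + 1) := by
    field_simp
  have e2 : (a ^ 2 - v * e ^ 2 / (v + 1)) * p + e ^ 2 / (v + 1) * q =
      (((v + 1) * a ^ 2 - v * e ^ 2) * p + e ^ 2 * q) / (v + 1) := by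
    field_simp
  rw [e1, e2]
  refine div_le_div_of_nonneg_right ?_ hv1.le
  -- `e² q ≥ e (c y) - e² k m` and `e² k m ≤ 3 e (a - e) p`
  have h4 : e * (c * y) ≤ e ^ 2 * q + e * (a - e) * m := by
    have := mul_le_mul_of_nonneg_left hq2 he.le
    calc e * (c * y) ≤ e * ((q + k * m) * e) := this
      _ = e ^ 2 * q + e * (k * e) * m := by ring
      _ = _ := by rw [hke]
  have h5 : e * (a - e) * m ≤ e * (a - e) * (3 * p) :=
    mul_le_mul_of_nonneg_left h2 (mul_nonneg he.le (by linarith))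
  have h6 : 0 ≤ (v + 1) * a ^ 2 - v * e ^ 2 - 3 * (e * (a - e)) := by
    nlinarith [mul_nonneg (by linarith : 0 ≤ v - 2) (by nlinarith : 0 ≤ a ^ 2 - e ^ 2),
      mul_nonneg he.le (by linarith : 0 ≤ a - e), sq_nonneg (a - e)]
  have h7 := mul_le_mul_of_nonneg_left hpa h6
  have h8 : c * ((v + 1) * a ^ 3 - ((3 - v) * a * e * (a - e) + (v - 1) * e ^ 3)) =
      ((v + 1) * a ^ 2 - v * e ^ 2 - 3 * (e * (a - e))) * (c * a) + e * (c * y) := by
    rw [hy]; ring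
  rw [h8]
  nlinarith [h4, h5, h7]

section general

variable {G : Type*} [NormedAddCommGroup G] [NormedSpace ℝ G] [FiniteDimensional ℝ G]
  [MeasurableSpace G] [BorelSpace G] (μ : Measure G) [μ.IsAddHaarMeasure]
  (h3 : finrank ℝ G = 3)

include h3

theorem T_sing1 (x : G) (Y Z : ConvexBody G) : T μ (sing x) Y Z = 0 :=
  V_sing μ x _ (by simp [h3])

/-- the chain -/
theorem Y_of (K B : ConvexBody G) (hK : 0 < vl μ K) (hB : 0 < vl μ B) {x : G}
    (hx : (-1 : ℝ) • K ≤ (3 : ℝ≥0) • K + sing x) {v a e s : ℝ}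
    (hv : T μ K K ((-1 : ℝ) • K) = v * vl μ K) (hv2 : 2 ≤ v) (he : 0 < e)
    (hea : e ≤ a) (hs0 : 0 ≤ s) (hs1 : s ≤ 1)
    (hBl : ∀ M : ConvexBody G, W μ B M 1 =
      FF μ K ((-1 : ℝ) • K) (a ^ 2 - v * e ^ 2 / (v + 1)) (e ^ 2 / (v + 1)) M)
    (S : ConvexBody G) (h1 : S ≤ (1 - s).toNNReal • K)
    (h2 : S ≤ (1 + s).toNNReal • ((-1 : ℝ) • K))
    (hH : 0 ≤ a ^ 3 - ((3 - v) * a * e * (a - e) + (v - 1) * e ^ 3) / (v + 1)) :
    vl μ S * (a ^ 3 - ((3 - v) * a * e * (a - e) + (v - 1) * e ^ 3) / (v + 1)) ^ 2 ≤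
      vl μ K * (a ^ 2 * (1 - s) - ((v - 1) / (v + 1) - s) * e ^ 2) ^ 3 := by
  set N : ConvexBody G := (-1 : ℝ) • K with hN
  set α : ℝ := a ^ 2 - v * e ^ 2 / (v + 1) with hα
  set β : ℝ := e ^ 2 / (v + 1) with hβ
  set c : ℝ := vl μ K with hc
  have ha : 0 < a := lt_of_lt_of_le he hea
  have hv1 : 0 < v + 1 := by linarith
  have hNN : (-1 : ℝ) • N = K := neg_neg_body K
  have hKKK : T μ K K K = c := (vl3 μ h3 K).symm
  have hNNN : T μ N N N = c := by rw [hN, T_neg, hKKK]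
  have hNc : vl μ N = c := by rw [vl3 μ h3 N, hNNN]
  have hKKN : T μ K K N = v * c := hv
  have hKNN : T μ K N N = v * c := by
    rw [← T_neg μ K N N, ← hN, hNN, T_13 μ N K K, hKKN]
  have hBM : ∀ M : ConvexBody G, T μ M B B = α * T μ M K K + β * T μ M N N := by
    intro M
    have h := hBl M
    unfold FF at h
    rwa [W_one3 μ h3, W_one3 μ h3, W_one3 μ h3] at h
  have hα0 : 0 ≤ α := by
    rw [hα, sub_nonneg, div_le_iff₀ hv1]
    have : e ^ 2 ≤ a ^ 2 := pow_le_pow_left₀ he.le hea 2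
    nlinarith [sq_nonneg e]
  have hβ0 : 0 ≤ β := by positivity
  have sab : α + β * v = a ^ 2 := by rw [hα, hβ]; field_simp; ring
  have sab2 : α * v + β = v * a ^ 2 - (v - 1) * e ^ 2 := by
    rw [hα, hβ]; field_simp; ring
  -- mixed volumes with two `B`
  have hKBB : T μ K B B = c * a ^ 2 := by
    rw [hBM K, hKKK, hKNN, ← sab]; ring
  have hNBB : T μ N B B = c * (v * a ^ 2 - (v - 1) * e ^ 2) := by
    rw [hBM N, hNNN, T_13 μ N K K, hKKN, ← sab2]; ring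
  set p : ℝ := T μ B K K with hp
  set q : ℝ := T μ B N N with hq
  set m : ℝ := T μ B K N with hm
  have hp0 : 0 ≤ p := T_nonneg μ h3 _ _ _
  have hq0 : 0 ≤ q := T_nonneg μ h3 _ _ _
  have hm0 : 0 ≤ m := T_nonneg μ h3 _ _ _
  have hBBB : vl μ B = α * p + β * q := by rw [vl3 μ h3 B, hBM B]
  -- (i)
  have i1 : c * (c * a ^ 2) ≤ p ^ 2 := by
    have h := second3 μ h3 K B hK
    rwa [hKKK, T_13 μ B B K, hKBB] at h
  -- (ii)
  have i2 : m ≤ 3 * p := by
    have h := T_mono1 μ h3 hx K B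
    rw [T_add1 μ h3, T_smul1 μ h3, T_sing1 μ h3, add_zero] at h
    have e1 : T μ N K B = m := by rw [T_13 μ N K B]
    have e2 : T μ K K B = p := by rw [T_13 μ K K B]
    rw [e1, e2] at h
    simpa using h
  -- (iii)
  set k : ℝ := a / e - 1 with hk
  have hk0 : 0 ≤ k := by rw [hk, sub_nonneg, le_div_iff₀ he]; linarith
  have hqpos : 0 < q := by
    have h := W_pos μ N B (by omega) (by rw [hNc]; exact hK) hB
    rwa [W_one3 μ h3] at h
  have i3 : c * (v * a ^ 2 - (v - 1) * e ^ 2) * (c * (1 + 2 * k * v + k ^ 2 * v)) ≤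
      (q + k * m) ^ 2 := by
    have hkk : (k.toNNReal : ℝ) = k := Real.coe_toNNReal k hk0
    have h := af3 μ h3 B (N + k.toNNReal • K) N (by rw [hNc]; exact hK) hqpos (by
      rw [T_add1 μ h3, T_smul1 μ h3, hNNN, hKNN, hkk]
      have : 0 ≤ k * (v * c) := by positivity
      linarith)
    simp only [T_add1 μ h3, T_smul1 μ h3, T_add2 μ h3, T_smul2 μ h3, hkk] at h
    rw [hNNN, T_13 μ B B N, hNBB, T_12 μ N K N, hKNN, hKKN] at h
    refine le_trans (le_of_eq ?_) (h.trans (le_of_eq ?_))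
    · ring
    · ring
  have hlow := real_low hK hv2 he hea hp0 hm0 hq0 i1 i2 i3
  rw [← hα, ← hβ, ← hBBB] at hlow
  set H : ℝ := a ^ 3 - ((3 - v) * a * e * (a - e) + (v - 1) * e ^ 3) / (v + 1) with hHdef
  -- the upper bound of `V(S, B, B)`
  have j1 : T μ S K K ≤ (1 - s) * c := by
    have h := T_mono1 μ h3 h1 K K
    rwa [T_smul1 μ h3, hKKK, Real.coe_toNNReal _ (by linarith)] at h
  have j2 : T μ S N N ≤ (1 + s) * c := by
    have h := T_mono1 μ h3 h2 N N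
    rwa [T_smul1 μ h3, hNNN, Real.coe_toNNReal _ (by linarith)] at h
  have j3 : T μ S B B ≤ c * (a ^ 2 * (1 - s) - ((v - 1) / (v + 1) - s) * e ^ 2) := by
    rw [hBM S]
    calc α * T μ S K K + β * T μ S N N ≤ α * ((1 - s) * c) + β * ((1 + s) * c) := by gcongr
      _ = _ := by rw [hα, hβ]; field_simp; ring
  have j4 : vl μ B ^ 2 * vl μ S ≤ T μ S B B ^ 3 := by
    have h := mink_std μ B S (by omega) hB
    rwa [W_one3 μ h3, h3] at h
  have j5 : (c * H) ^ 2 ≤ vl μ B ^ 2 := pow_le_pow_left₀ (by positivity) hlow 2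
  have hS0 := vl_nonneg μ S
  have j6 : c ^ 2 * (vl μ S * H ^ 2) ≤ c ^ 2 * (c * (a ^ 2 * (1 - s) -
      ((v - 1) / (v + 1) - s) * e ^ 2) ^ 3) := by
    calc c ^ 2 * (vl μ S * H ^ 2) = (c * H) ^ 2 * vl μ S := by ring
      _ ≤ vl μ B ^ 2 * vl μ S := by gcongr
      _ ≤ T μ S B B ^ 3 := j4
      _ ≤ (c * (a ^ 2 * (1 - s) - ((v - 1) / (v + 1) - s) * e ^ 2)) ^ 3 :=
          pow_le_pow_left₀ (T_nonneg μ h3 _ _ _) j3 3
      _ = _ := by ring
  exact le_of_mul_le_mul_left j6 (by positivity)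

end general

end Pool.Agent.Helper2.M3
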