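import Pool.Agent.Helper2.Mah.AF3
import Pool.Agent.Helper73.Twin1

/-!
# Mahler's conjecture in dimension three: common definitions
-/

set_option autoImplicit false

open MeasureTheory Set Multiset Module
open scoped Pointwise NNReal ENNReal

noncomputable section

namespace Pool.Agent.Helper2.M3

open Pool.Agent.TH650.MV Pool.Agent.Helper2.Mah

section general

variable {G : Type*} [NormedAddCommGroup G] [NormedSpace ℝ G] [FiniteDimensional ℝ G]
  [MeasurableSpace G] [BorelSpace G] (μ : Measure G) [μ.IsAddHaarMeasure]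

/-- the inner parallel set of `B` relative to `ε M` -/
def inn (B M : Set G) (ε : ℝ) : Set G := {x | ∀ m ∈ M, x + ε • m ∈ B}

/-- the functional `α V(L, K₁[n-1]) + β V(L, K₂[n-1])` -/
def FF (K₁ K₂ : ConvexBody G) (α β : ℝ) (L : ConvexBody G) : ℝ :=
  α * W μ K₁ L 1 + β * W μ K₂ L 1

end general

/-- the quantities of the pointwise bound; `θ = 4 / (1 + v)` -/
def F3 (θ s : ℝ) : ℝ := (1 - s) ^ 3 - (1 - θ / 2 - s) * (1 - 2 * θ * s) ^ 2

def H3 (θ s : ℝ) : ℝ :=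
  (1 - s) ^ 3 - (θ - 1) * (2 * θ - 1) * s * (1 - s) * (1 - 2 * θ * s)
    - (1 - θ / 2) * (1 - 2 * θ * s) ^ 3

/-- the polynomial upper bound of `|S_s| / |K|` -/
def P3 (θ s : ℝ) : ℝ :=
  3 * F3 θ s - 2 * H3 θ s
    + (45 * θ ^ 2 - 40 * θ + 5) * (θ - 1) ^ 2 * s ^ 2 * (1 - 2 * θ * s) ^ 2

/-- the section body `{(s, y) : |s| ≤ 1, y ∈ (1 - s) K, -y ∈ (1 + s) K}`
(first coordinate is the height) -/
def sec {n : ℕ} (K : Set (Fin n → ℝ)) : Set (Fin (n + 1) → ℝ) :=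
  {w | |w 0| ≤ 1 ∧ (Fin.tail w : Fin n → ℝ) ∈ (1 - w 0) • K ∧
    -(Fin.tail w : Fin n → ℝ) ∈ (1 + w 0) • K}

end Pool.Agent.Helper2.M3
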