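import Pool.Agent.Helper2.M3.X3
import Pool.Agent.Helper2.M3.Y1
import Pool.Agent.Helper84.MB.X1
import Pool.Agent.Helper14.MB.X2
import Pool.Agent.Helper96.MB.Z
import Pool.Agent.Helper17.MB.I
import Pool.Agent.Helper3.MB.R3
import Pool.Agent.Helper3.MB.X4

/-!
# Mahler's conjecture in dimension three (assembly)
-/

set_option autoImplicit false

open MeasureTheory Set Multiset Module
open scoped Pointwise NNReal ENNReal

noncomputable section

namespace Pool.Agent.Helper2.M3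

open Pool.Agent.TH650.MV Pool.Agent.Helper2.Mah
open W679AM H712MA Helper73.Twin

/-- **Blaschke sums** exist in every dimension at least two -/
theorem blaschke {G : Type*} [NormedAddCommGroup G] [NormedSpace ℝ G] [FiniteDimensional ℝ G]
    [MeasurableSpace G] [BorelSpace G] (μ : Measure G) [μ.IsAddHaarMeasure]
    (K₁ K₂ : ConvexBody G) (h₁ : 0 < vl μ K₁) {α β : ℝ} (hα : 0 < α) (hβ : 0 ≤ β)
    (hn : 2 ≤ finrank ℝ G) : ∃ B : ConvexBody G, 0 < vl μ B ∧ ∀ M : ConvexBody G,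
      W μ B M 1 = FF μ K₁ K₂ α β M :=
  X3_of μ K₁ K₂ (fun B M hB hM δ hδ => Helper84.MB.X1 μ B M hB hM hδ)
    (fun K₁ K₂ h₁ α β hα hβ hn => Helper14.MB.X2 μ K₁ K₂ h₁ hα hβ hn) h₁ hα hβ hn

theorem asym3 (K : ConvexBody (Fin 3 → ℝ)) :
    ∃ x, (-1 : ℝ) • K ≤ (3 : ℝ≥0) • K + sing x := by
  obtain ⟨x, hx⟩ := Helper3.MB.X4 K
  refine ⟨x, ?_⟩
  have e : (finrank ℝ (Fin 3 → ℝ) : ℝ≥0) = 3 := by simp
  rwa [e] at hx

theorem sI : Helper3.MB.SI := by
  intro K h KB hKB v hT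
  refine Helper17.MB.I_of ?_ asym3 (fun θ s h1 h2 h3 h4 => Helper96.MB.Z1 h1 h2 h3 h4)
    (fun θ h1 => Helper96.MB.Z2 h1) h KB hKB hT
  intro K hK v hv hv2 hv3 a e s he hea hs0 hs1 S h1 h2 hH
  have hf : finrank ℝ (Fin 3 → ℝ) = 3 := by simp
  obtain ⟨x, hx⟩ := asym3 K
  have hv1 : 0 < v + 1 := by linarith
  have hα : 0 < a ^ 2 - v * e ^ 2 / (v + 1) := by
    rw [sub_pos, div_lt_iff₀ hv1]
    have h3 : e ^ 2 ≤ a ^ 2 := pow_le_pow_left₀ he.le hea 2
    have h4 : 0 < e ^ 2 := by positivity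
    nlinarith
  obtain ⟨B, hB, hBl⟩ := blaschke volume K ((-1 : ℝ) • K) hK hα
    (β := e ^ 2 / (v + 1)) (by positivity) (by rw [hf]; norm_num)
  exact Y_of volume hf K B hK hB hx hv hv2 he hea hs0 hs1 hBl S h1 h2 hH

/-- the one-body inequality in dimension three -/
theorem one_body3 {K : Set (Fin 3 → ℝ)} (h : OBody K) :
    volume (twin K) * volume (sec K) ≤ ENNReal.ofReal (3 / 2) * volume K ^ 2 :=
  Helper3.MB.one_body sI h

/-- **Mahler's conjecture in dimension three**: `|K| |K°| ≥ 64 / 9` -/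
theorem product3 {K : Set (Fin 3 → ℝ)} (h : OBody K) :
    ENNReal.ofReal (64 / 9) ≤ volume K * volume (GB.plr K) :=
  Helper3.MB.R3_of sI h

end Pool.Agent.Helper2.M3

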