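import Pool.Agent.Helper2.M3.Y0

/-!
# Blaschke sums, from Aleksandrov's variational lemma and the existence of a maximiser
-/

set_option autoImplicit false
set_option linter.unusedSectionVars false

open MeasureTheory Set Multiset Module
open scoped Pointwise NNReal ENNReal

noncomputable section

namespace Pool.Agent.Helper2.M3

open Pool.Agent.TH650.MV Pool.Agent.Helper2.Mah

open Polynomial in
/-- the lowest coefficient of a polynomial that is nonnegative on `(0, r)` -/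
theorem coeff_nonneg_near (R : ℝ[X]) (k : ℕ) (h0 : ∀ i < k, R.coeff i = 0) {r : ℝ} (hr : 0 < r)
    (h : ∀ x : ℝ, 0 < x → x < r → 0 ≤ R.eval x) : 0 ≤ R.coeff k := by
  obtain ⟨S, hS⟩ := X_pow_dvd_iff.2 h0
  have h1 : R.coeff k = S.eval 0 := by
    rw [hS, ← coeff_zero_eq_eval_zero]
    have := coeff_X_pow_mul S k 0
    rwa [zero_add] at this
  rw [h1]
  have h2 : ∀ x : ℝ, 0 < x → x < r → 0 ≤ S.eval x := by
    intro x hx hx1
    have h3 := h x hx hx1
    rw [hS, eval_mul, eval_pow, eval_X] at h3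
    exact nonneg_of_mul_nonneg_right h3 (pow_pos hx k)
  have hc : ContinuousWithinAt (fun x : ℝ => S.eval x) (Ioo 0 r) 0 :=
    S.continuous.continuousWithinAt
  have hne : (nhdsWithin (0 : ℝ) (Ioo 0 r)).NeBot := by
    rw [← mem_closure_iff_nhdsWithin_neBot, closure_Ioo hr.ne]
    exact ⟨le_rfl, hr.le⟩
  exact ge_of_tendsto hc (Filter.eventually_of_mem self_mem_nhdsWithin fun x hx => h2 x hx.1 hx.2)

section general

variable {G : Type*} [NormedAddCommGroup G] [NormedSpace ℝ G] [FiniteDimensional ℝ G]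
  [MeasurableSpace G] [BorelSpace G] (μ : Measure G) [μ.IsAddHaarMeasure]

/-- the statement of the variational lemma -/
def SX1 : Prop := ∀ B M : ConvexBody G, (0 : G) ∈ interior (B : Set G) → (0 : G) ∈ M →
    ∀ δ : ℝ, 0 < δ → ∃ ε₀ : ℝ, 0 < ε₀ ∧ ∀ ε : ℝ, 0 < ε → ε < ε₀ →
      (μ (B : Set G)).toReal - (μ (inn (B : Set G) M ε)).toReal ≤
        (μ ((B : Set G) + ε • (M : Set G))).toReal - (μ (B : Set G)).toReal + δ * ε

/-- the statement of the existence of a maximiser -/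
def SX2 : Prop := ∀ (K₁ K₂ : ConvexBody G), 0 < vl μ K₁ → ∀ α β : ℝ, 0 < α → 0 ≤ β →
    2 ≤ finrank ℝ G → ∃ B : ConvexBody G, 0 < vl μ B ∧ ∀ L : ConvexBody G,
      vl μ L * FF μ K₁ K₂ α β B ^ finrank ℝ G ≤ vl μ B * FF μ K₁ K₂ α β L ^ finrank ℝ G

theorem interior_nonempty_of_vl (B : ConvexBody G) (hB : 0 < vl μ B) :
    (interior (B : Set G)).Nonempty := by
  by_contra hcon
  rw [not_nonempty_iff_eq_empty] at hcon
  have h1 : (B : Set G) ⊆ frontier (B : Set G) := by
    intro x hx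
    rw [frontier, hcon, sdiff_empty]
    exact subset_closure hx
  have h2 : μ (B : Set G) = 0 := measure_mono_null h1 (B.convex.addHaar_frontier μ)
  unfold vl at hB
  rw [h2] at hB
  simp at hB

variable (K₁ K₂ : ConvexBody G)

theorem W_one_eq (A M : ConvexBody G) : W μ A M 1 = V μ (M ::ₘ replicate (finrank ℝ G - 1) A) := by
  unfold W
  rw [replicate_one, singleton_add]

theorem W_one_add (hn : 1 ≤ finrank ℝ G) (A M M' : ConvexBody G) :
    W μ A (M + M') 1 = W μ A M 1 + W μ A M' 1 := by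
  rw [W_one_eq, W_one_eq, W_one_eq, V_add μ M M' _ (by rw [card_replicate]; omega)]

theorem W_one_smul (hn : 1 ≤ finrank ℝ G) (A M : ConvexBody G) (c : ℝ≥0) :
    W μ A (c • M) 1 = c * W μ A M 1 := by
  rw [W_one_eq, W_one_eq, V_smul μ c M _ (by rw [card_replicate]; omega)]

theorem W_one_sing (hn : 1 ≤ finrank ℝ G) (A : ConvexBody G) (x : G) :
    W μ A (sing x) 1 = 0 := by
  rw [W_one_eq, V_sing μ x _ (by rw [card_replicate]; omega)]

theorem W_one_mono (hn : 1 ≤ finrank ℝ G) (A : ConvexBody G) {M M' : ConvexBody G} (h : M ≤ M') :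
    W μ A M 1 ≤ W μ A M' 1 := by
  rw [W_one_eq, W_one_eq]
  exact V_mono μ h _ (by rw [card_replicate]; omega)

/-- scaling the first body -/
theorem W_one_smul_left (hn : 1 ≤ finrank ℝ G) (A M : ConvexBody G) (c : ℝ≥0) :
    W μ (c • A) M 1 = (c : ℝ) ^ (finrank ℝ G - 1) * W μ A M 1 := by
  unfold W
  rw [add_comm, V_smul_replicate μ c A _ _ (by rw [card_replicate]; omega), add_comm]

theorem FF_add (hn : 1 ≤ finrank ℝ G) (α β : ℝ) (M M' : ConvexBody G) :
    FF μ K₁ K₂ α β (M + M') = FF μ K₁ K₂ α β M + FF μ K₁ K₂ α β M' := by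
  unfold FF
  rw [W_one_add μ hn, W_one_add μ hn]; ring

theorem FF_smul (hn : 1 ≤ finrank ℝ G) (α β : ℝ) (M : ConvexBody G) (c : ℝ≥0) :
    FF μ K₁ K₂ α β (c • M) = c * FF μ K₁ K₂ α β M := by
  unfold FF
  rw [W_one_smul μ hn, W_one_smul μ hn]; ring

theorem FF_sing (hn : 1 ≤ finrank ℝ G) (α β : ℝ) (x : G) :
    FF μ K₁ K₂ α β (sing x) = 0 := by
  unfold FF
  rw [W_one_sing μ hn, W_one_sing μ hn]; ring

theorem FF_mono (hn : 1 ≤ finrank ℝ G) {α β : ℝ} (hα : 0 ≤ α) (hβ : 0 ≤ β) {M M' : ConvexBody G}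
    (h : M ≤ M') : FF μ K₁ K₂ α β M ≤ FF μ K₁ K₂ α β M' := by
  unfold FF
  exact add_le_add (mul_le_mul_of_nonneg_left (W_one_mono μ hn _ h) hα)
    (mul_le_mul_of_nonneg_left (W_one_mono μ hn _ h) hβ)

theorem FF_nonneg (hn : 1 ≤ finrank ℝ G) {α β : ℝ} (hα : 0 ≤ α) (hβ : 0 ≤ β) (M : ConvexBody G) :
    0 ≤ FF μ K₁ K₂ α β M :=
  add_nonneg (mul_nonneg hα (W_nonneg μ _ _ hn)) (mul_nonneg hβ (W_nonneg μ _ _ hn))

/-- the inner parallel body -/
def innb (B M : ConvexBody G) (ε : ℝ) (h : (inn (B : Set G) M ε).Nonempty) : ConvexBody G :=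
  ⟨inn (B : Set G) M ε, by
      intro x hx y hy s t hs ht hst m hm
      have h1 := B.convex (hx m hm) (hy m hm) hs ht hst
      have h2 : s • (x + ε • m) + t • (y + ε • m) = s • x + t • y + ε • m := by
        rw [smul_add, smul_add, add_add_add_comm, ← add_smul, hst, one_smul]
      rwa [h2] at h1, by
      refine IsCompact.of_isClosed_subset (s := (B : Set G) + (-ε) • (M : Set G))
        (B.isCompact.add (M.isCompact.smul _)) ?_ ?_
      · have : inn (B : Set G) M ε = ⋂ m ∈ (M : Set G), (fun x => x + ε • m) ⁻¹' (B : Set G) := by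
          ext x; simp [inn]
        rw [this]
        exact isClosed_biInter fun m _ =>
          B.isCompact.isClosed.preimage (by fun_prop)
      · intro x hx
        obtain ⟨m, hm⟩ := M.nonempty
        refine ⟨x + ε • m, hx m hm, (-ε) • m, ⟨m, hm, rfl⟩, ?_⟩
        simp, h⟩

theorem innb_add_le (B M : ConvexBody G) {ε : ℝ} (hε : 0 ≤ ε)
    (h : (inn (B : Set G) M ε).Nonempty) : innb B M ε h + ε.toNNReal • M ≤ B := by
  refine SetLike.coe_subset_coe.mp ?_
  rw [ConvexBody.coe_add, ConvexBody.coe_smul']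
  rintro _ ⟨x, hx, _, ⟨m, hm, rfl⟩, rfl⟩
  have := hx m hm
  show x + (ε.toNNReal : ℝ≥0) • m ∈ (B : Set G)
  have e : (ε.toNNReal : ℝ≥0) • m = ε • m := by
    rw [NNReal.smul_def, Real.coe_toNNReal _ hε]
  rwa [e]

theorem inn_nonempty (B M : ConvexBody G) (hB : (0 : G) ∈ interior (B : Set G)) :
    ∃ ε₁ : ℝ, 0 < ε₁ ∧ ∀ ε : ℝ, 0 < ε → ε < ε₁ → (inn (B : Set G) M ε).Nonempty := by
  obtain ⟨r, hr, hb⟩ := Metric.mem_nhds_iff.1 (mem_interior_iff_mem_nhds.1 hB)
  obtain ⟨R, hR⟩ := isBounded_iff_forall_norm_le.1 M.isCompact.isBounded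
  have hR0 : 0 < |R| + 1 := by positivity
  refine ⟨r / (|R| + 1), by positivity, fun ε h0 h1 => ⟨0, fun m hm => ?_⟩⟩
  apply hb
  rw [Metric.mem_ball, dist_zero_right, zero_add, norm_smul, Real.norm_eq_abs, abs_of_pos h0]
  have h2 : ‖m‖ ≤ |R| + 1 := (hR m hm).trans ((le_abs_self R).trans (by linarith))
  calc ε * ‖m‖ ≤ ε * (|R| + 1) := by gcongr
    _ < r / (|R| + 1) * (|R| + 1) := by gcongr
    _ = r := by field_simp

open Polynomial in
/-- outer variation -/
theorem outer_var (hn : 2 ≤ finrank ℝ G) {α β : ℝ} (B M : ConvexBody G)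
    (hB : 0 < FF μ K₁ K₂ α β B)
    (hmax : ∀ L : ConvexBody G, vl μ L * FF μ K₁ K₂ α β B ^ finrank ℝ G ≤
      vl μ B * FF μ K₁ K₂ α β L ^ finrank ℝ G) :
    W μ B M 1 * FF μ K₁ K₂ α β B ≤ vl μ B * FF μ K₁ K₂ α β M := by
  set n := finrank ℝ G with hndef
  set f := FF μ K₁ K₂ α β B with hf
  set g := FF μ K₁ K₂ α β M with hg
  have key := coeff_nonneg_near (C (vl μ B) * (C f + C g * X) ^ n - C (f ^ n) * PW μ B M) 1 (by
      intro i hi
      obtain rfl : i = 0 := by omega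
      rw [coeff_sub, coeff_C_mul, coeff_C_mul, lin_pow_coeff, PW_coeff μ B M (Nat.zero_le _),
        W_zero]
      simp
      ring) one_pos (by
      intro x hx _
      rw [eval_sub, eval_mul, eval_mul, eval_C, eval_C, PW_eval μ B M hx.le, eval_pow, eval_add,
        eval_C, eval_mul, eval_C, eval_X]
      have h := hmax (B + x.toNNReal • M)
      rw [FF_add μ K₁ K₂ (by omega), FF_smul μ K₁ K₂ (by omega), Real.coe_toNNReal x hx.le, ← hf,
        ← hg, mul_comm x g] at h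
      rw [mul_comm (f ^ n)]
      linarith)
  rw [coeff_sub, coeff_C_mul, coeff_C_mul, lin_pow_coeff, PW_coeff μ B M (by omega), ← hndef,
    Nat.choose_one_right, pow_one] at key
  have hnpos : (0 : ℝ) < n := by exact_mod_cast (by omega : 0 < n)
  have h4 : f ^ n = f ^ (n - 1) * f := by rw [← pow_succ]; congr 1; omega
  have h5 : 0 < f ^ (n - 1) := by positivity
  have h6 : 0 ≤ (n * f ^ (n - 1)) * (vl μ B * g - W μ B M 1 * f) := by
    refine le_of_le_of_eq key ?_
    rw [h4]; ring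
  have h7 := nonneg_of_mul_nonneg_right h6 (by positivity)
  linarith

open Polynomial in
/-- inner variation -/
theorem inner_var (hX1 : SX1 μ) (hn : 2 ≤ finrank ℝ G) {α β : ℝ} (hα : 0 ≤ α) (hβ : 0 ≤ β)
    (B M : ConvexBody G) (hB : 0 < FF μ K₁ K₂ α β B) (hB0 : 0 < vl μ B)
    (hBi : (0 : G) ∈ interior (B : Set G)) (hM0 : (0 : G) ∈ M)
    (hmax : ∀ L : ConvexBody G, vl μ L * FF μ K₁ K₂ α β B ^ finrank ℝ G ≤
      vl μ B * FF μ K₁ K₂ α β L ^ finrank ℝ G) :
    vl μ B * FF μ K₁ K₂ α β M ≤ W μ B M 1 * FF μ K₁ K₂ α β B := by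
  set n := finrank ℝ G with hndef
  set f := FF μ K₁ K₂ α β B with hf
  set g := FF μ K₁ K₂ α β M with hg
  have hnpos : (0 : ℝ) < n := by exact_mod_cast (by omega : 0 < n)
  obtain ⟨ε₁, hε₁, hne⟩ := inn_nonempty B M hBi
  have main : ∀ δ : ℝ, 0 < δ → vl μ B * g ≤ W μ B M 1 * f + δ * f := by
    intro δ hδ
    obtain ⟨ε₀, hε₀, h1⟩ := hX1 B M hBi hM0 (n * δ) (by positivity)
    have key := coeff_nonneg_near (C (f ^ n) * (PW μ B M - C (vl μ B) + C (n * δ) * X) -
      C (vl μ B) * (C (f ^ n) - (C f + C (-g) * X) ^ n)) 1 (by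
        intro i hi
        obtain rfl : i = 0 := by omega
        rw [coeff_sub, coeff_C_mul, coeff_C_mul, coeff_add, coeff_sub, coeff_sub, lin_pow_coeff,
          PW_coeff μ B M (Nat.zero_le _), W_zero, coeff_C_zero, coeff_C_zero, coeff_C_mul,
          coeff_X_zero, Nat.choose_zero_right, pow_zero, Nat.sub_zero]
        push_cast
        ring) (lt_min hε₀ hε₁) (by
        intro x hx hx1
        rw [lt_min_iff] at hx1
        rw [eval_sub, eval_mul, eval_mul, eval_C, eval_C, eval_add, eval_sub, eval_sub,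
          PW_eval μ B M hx.le, eval_C, eval_pow, eval_add, eval_C, eval_mul, eval_C, eval_X,
          eval_mul, eval_C, eval_X, eval_C]
        have hC := hne x hx hx1.2
        have h2 := h1 x hx hx1.1
        have h3 := hmax (innb B M x hC)
        have h4 : FF μ K₁ K₂ α β (innb B M x hC) + x * g ≤ f := by
          have h := FF_mono μ K₁ K₂ (by omega) hα hβ (innb_add_le B M hx.le hC)
          rwa [FF_add μ K₁ K₂ (by omega), FF_smul μ K₁ K₂ (by omega),
            Real.coe_toNNReal x hx.le] at h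
        have h5 : FF μ K₁ K₂ α β (innb B M x hC) ^ n ≤ (f + -g * x) ^ n := by
          refine pow_le_pow_left₀ (FF_nonneg μ K₁ K₂ (by omega) hα hβ _) ?_ n
          linarith
        have e1 : (μ (inn (B : Set G) M x)).toReal = vl μ (innb B M x hC) := rfl
        have e2 : (μ ((B : Set G) + x • (M : Set G))).toReal = vl μ (B + x.toNNReal • M) := by
          unfold vl
          rw [ConvexBody.coe_add, ConvexBody.coe_smul']
          congr 3
          ext y
          rw [Set.mem_smul_set, Set.mem_smul_set]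
          simp only [NNReal.smul_def, Real.coe_toNNReal x hx.le]
        have e3 : (μ (B : Set G)).toReal = vl μ B := rfl
        rw [e1, e2, e3] at h2
        have h6 : vl μ (innb B M x hC) * f ^ n ≤ vl μ B * (f + -g * x) ^ n :=
          h3.trans (mul_le_mul_of_nonneg_left h5 hB0.le)
        have h7 : f ^ n * (vl μ B - vl μ (innb B M x hC)) ≤
            f ^ n * (vl μ (B + x.toNNReal • M) - vl μ B + n * δ * x) :=
          mul_le_mul_of_nonneg_left h2 (by positivity)
        linarith)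
    rw [coeff_sub, coeff_C_mul, coeff_C_mul, coeff_add, coeff_sub, coeff_sub, lin_pow_coeff,
      PW_coeff μ B M (by omega), ← hndef, Nat.choose_one_right, pow_one, coeff_C_mul, coeff_X_one,
      coeff_C_of_ne_zero one_ne_zero, coeff_C_of_ne_zero one_ne_zero] at key
    have h4 : f ^ n = f ^ (n - 1) * f := by rw [← pow_succ]; congr 1; omega
    have h5 : 0 < f ^ (n - 1) := by positivity
    have h6 : 0 ≤ (n * f ^ (n - 1)) * ((W μ B M 1 * f + δ * f) - vl μ B * g) := by
      refine le_of_le_of_eq key ?_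
      rw [h4]; ring
    have h7 := nonneg_of_mul_nonneg_right h6 (by positivity)
    linarith
  refine le_of_forall_pos_le_add fun ε hε => ?_
  have h := main (ε / f) (by positivity)
  rwa [div_mul_cancel₀ _ hB.ne'] at h

/-- **Blaschke sums** -/
theorem X3_of (hX1 : SX1 μ) (hX2 : SX2 μ) (h₁ : 0 < vl μ K₁) {α β : ℝ} (hα : 0 < α) (hβ : 0 ≤ β)
    (hn : 2 ≤ finrank ℝ G) : ∃ B : ConvexBody G, 0 < vl μ B ∧ ∀ M : ConvexBody G,
      W μ B M 1 = FF μ K₁ K₂ α β M := by
  obtain ⟨B₀, hB₀, hmax₀⟩ := hX2 K₁ K₂ h₁ α β hα hβ hn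
  obtain ⟨x₀, hx₀⟩ := interior_nonempty_of_vl μ B₀ hB₀
  set B : ConvexBody G := B₀ + sing (-x₀) with hB
  have hvB : vl μ B = vl μ B₀ := vl_add_sing μ B₀ (-x₀)
  have hFB : FF μ K₁ K₂ α β B = FF μ K₁ K₂ α β B₀ := by
    rw [hB, FF_add μ K₁ K₂ (by omega), FF_sing μ K₁ K₂ (by omega), add_zero]
  have hBi : (0 : G) ∈ interior (B : Set G) := by
    have e : (B : Set G) = (Homeomorph.addRight (-x₀)) '' (B₀ : Set G) := by
      rw [hB, ConvexBody.coe_add]
      change (B₀ : Set G) + {-x₀} = _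
      rw [add_singleton]
      rfl
    rw [e, ← Homeomorph.image_interior]
    exact ⟨x₀, hx₀, by simp⟩
  have hmax : ∀ L : ConvexBody G, vl μ L * FF μ K₁ K₂ α β B ^ finrank ℝ G ≤
      vl μ B * FF μ K₁ K₂ α β L ^ finrank ℝ G := by
    intro L
    rw [hvB, hFB]
    exact hmax₀ L
  have hvB0 : 0 < vl μ B := by rw [hvB]; exact hB₀
  have hF0 : 0 < FF μ K₁ K₂ α β B := by
    have h1 := W_pos μ K₁ B (by omega) h₁ hvB0
    have h2 := W_nonneg μ K₂ B (i := 1) (by omega)
    unfold FF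
    positivity
  -- the bodies that contain the origin
  have hz : ∀ M : ConvexBody G, (0 : G) ∈ M →
      W μ B M 1 * FF μ K₁ K₂ α β B = vl μ B * FF μ K₁ K₂ α β M := by
    intro M hM
    refine le_antisymm ?_ ?_
    · exact outer_var μ K₁ K₂ hn B M hF0 hmax
    · exact inner_var μ K₁ K₂ hX1 hn hα.le hβ B M hF0 hvB0 hBi hM hmax
  have hall : ∀ M : ConvexBody G,
      W μ B M 1 * FF μ K₁ K₂ α β B = vl μ B * FF μ K₁ K₂ α β M := by
    intro M
    obtain ⟨m, hm⟩ := M.nonempty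
    have h := hz (M + sing (-m)) (by
      show (0 : G) ∈ ((M + sing (-m) : ConvexBody G) : Set G)
      rw [ConvexBody.coe_add]
      exact ⟨m, hm, -m, rfl, add_neg_cancel m⟩)
    rwa [W_one_add μ (by omega), W_one_sing μ (by omega), add_zero,
      FF_add μ K₁ K₂ (by omega) α β M (sing (-m)), FF_sing μ K₁ K₂ (by omega), add_zero] at h
  -- rescale
  set r : ℝ := FF μ K₁ K₂ α β B / vl μ B with hr
  have hr0 : 0 < r := by positivity
  set t : ℝ≥0 := (r ^ (((finrank ℝ G - 1 : ℕ) : ℝ)⁻¹)).toNNReal with ht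
  have ht0 : 0 < r ^ (((finrank ℝ G - 1 : ℕ) : ℝ)⁻¹) := Real.rpow_pos_of_pos hr0 _
  have htc : (t : ℝ) = r ^ (((finrank ℝ G - 1 : ℕ) : ℝ)⁻¹) := Real.coe_toNNReal _ ht0.le
  have htp : (t : ℝ) ^ (finrank ℝ G - 1) = r := by
    rw [htc]
    exact Real.rpow_inv_natCast_pow hr0.le (by omega)
  refine ⟨t • B, ?_, fun M => ?_⟩
  · rw [vl_smul]
    have : 0 < (t : ℝ) := by rw [htc]; exact ht0
    positivity
  · rw [W_one_smul_left μ (by omega), htp, hr, div_mul_eq_mul_div, mul_comm, hall M]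
    field_simp

end general

end Pool.Agent.Helper2.M3
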