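import Pool.Agent.Helper2.M3.Defs

/-!
# The chain of inequalities for a Blaschke sum of `K` and `-K`
-/

set_option autoImplicit false
set_option linter.unusedSectionVars false

open MeasureTheory Set Multiset Module
open scoped Pointwise NNReal ENNReal

noncomputable section

namespace Pool.Agent.Helper2.M3

open Pool.Agent.TH650.MV Pool.Agent.Helper2.Mah

section general

variable {G : Type*} [NormedAddCommGroup G] [NormedSpace ℝ G] [FiniteDimensional ℝ G]
  [MeasurableSpace G] [BorelSpace G] (μ : Measure G) [μ.IsAddHaarMeasure]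

/-- Minkowski's first inequality, lower bound of the linear coefficient -/
theorem mink_lin (A B : ConvexBody G) (hn : 1 ≤ finrank ℝ G) {a b : ℝ} (ha : 0 < a)
    (hA : a ^ finrank ℝ G = vl μ A) (hB : b ^ finrank ℝ G ≤ vl μ (A + B))
    : (b - a) * a ^ (finrank ℝ G - 1) ≤ W μ A B 1 := by
  have h := mink_first μ A B hn ha hA
  have h1 : b ≤ a + W μ A B 1 / a ^ (finrank ℝ G - 1) := by
    refine le_of_pow_le_pow_left₀ (n := finrank ℝ G) (by omega) ?_ (hB.trans h)
    have := W_nonneg μ A B (i := 1) hn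
    positivity
  have h2 : b - a ≤ W μ A B 1 / a ^ (finrank ℝ G - 1) := by linarith
  rwa [le_div_iff₀ (pow_pos ha _)] at h2

/-- Minkowski's first inequality -/
theorem mink_std (A B : ConvexBody G) (hn : 1 ≤ finrank ℝ G) (hA : 0 < vl μ A) :
    vl μ A ^ (finrank ℝ G - 1) * vl μ B ≤ W μ A B 1 ^ finrank ℝ G := by
  set n := finrank ℝ G with hndef
  have hn0 : n ≠ 0 := by omega
  rcases (vl_nonneg μ B).eq_or_lt with hB | hB
  · rw [← hB, mul_zero]
    exact pow_nonneg (W_nonneg μ A B hn) _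
  set a : ℝ := (vl μ A) ^ ((n : ℝ)⁻¹) with hadef
  have haA : a ^ n = vl μ A := Real.rpow_inv_natCast_pow (vl_nonneg μ _) hn0
  have ha : 0 < a := Real.rpow_pos_of_pos hA _
  set b : ℝ := (vl μ B) ^ ((n : ℝ)⁻¹) with hbdef
  have hbB : b ^ n = vl μ B := Real.rpow_inv_natCast_pow (vl_nonneg μ _) hn0
  have hb : 0 < b := Real.rpow_pos_of_pos hB _
  have h := mink_lin μ A B hn ha haA (b := a + b)
    (bm μ A B ha hb haA.le hbB.le)
  have h1 : b * a ^ (n - 1) ≤ W μ A B 1 := by
    refine le_trans (le_of_eq ?_) h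
    rw [hndef]; ring
  have h2 := pow_le_pow_left₀ (by positivity) h1 n
  refine le_trans (le_of_eq ?_) h2
  rw [mul_pow, hbB, ← haA, ← pow_mul, ← pow_mul, mul_comm (vl μ B), mul_comm n (n - 1)]

theorem W_pos (A B : ConvexBody G) (hn : 1 ≤ finrank ℝ G) (hA : 0 < vl μ A) (hB : 0 < vl μ B) :
    0 < W μ A B 1 := by
  have h := mink_std μ A B hn hA
  have h0 : 0 < vl μ A ^ (finrank ℝ G - 1) * vl μ B := by positivity
  rcases (W_nonneg μ A B (i := 1) hn).eq_or_lt with h1 | h1
  · rw [← h1, zero_pow (by omega)] at h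
    linarith
  · exact h1

/-- reflection of a body -/
theorem neg_neg_body (K : ConvexBody G) : (-1 : ℝ) • ((-1 : ℝ) • K) = K := by
  rw [smul_smul]; norm_num

theorem img_neg (K : ConvexBody G) :
    img ((ContinuousLinearEquiv.neg ℝ (M := G) : G →L[ℝ] G)) K = (-1 : ℝ) • K := by
  apply SetLike.coe_injective
  rw [ConvexBody.coe_smul]
  ext x
  constructor
  · rintro ⟨y, hy, rfl⟩
    exact ⟨y, hy, by simp⟩
  · rintro ⟨y, hy, rfl⟩
    exact ⟨y, hy, by simp⟩

theorem map_neg (μ : Measure G) [μ.IsAddHaarMeasure] :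
    μ.map (ContinuousLinearEquiv.neg ℝ (M := G)) = μ := Measure.map_neg_eq_self μ

theorem V_neg (s : Multiset (ConvexBody G)) :
    V μ (s.map fun K => (-1 : ℝ) • K) = V μ s := by
  have h0 := V_equiv μ (ContinuousLinearEquiv.neg ℝ (M := G)) s
  rw [map_neg μ] at h0
  rw [← h0]
  congr 1
  refine Multiset.map_congr rfl fun K _ => ?_
  exact (img_neg K).symm

theorem T_neg (X Y Z : ConvexBody G) :
    T μ ((-1 : ℝ) • X) ((-1 : ℝ) • Y) ((-1 : ℝ) • Z) = T μ X Y Z := by
  unfold T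
  rw [← V_neg μ (X ::ₘ Y ::ₘ Z ::ₘ 0)]
  simp

end general

end Pool.Agent.Helper2.M3
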